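import Pool.Agent.Y380.KP.Lift

/-!
# Counting the sets which are not separated

If a maximal family of pairwise disjoint bad `(d+2)`-sets has `s` members then there are many bad
`(d+2)`-sets, by the colourful Caratheodory theorem with a prescribed point.
-/

set_option autoImplicit false

open Module

namespace Pool.Agent.Y380.KP

variable {d : ℕ}

/-- a bad set: the origin is in the hull of the lifted points -/
def Bad (A : Set (E d)) (S : Finset (E d)) : Prop :=
  (0 : V d) ∈ convexHull ℝ (lift A '' (S : Set (E d)))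

lemma Bad.mono {A : Set (E d)} {S T : Finset (E d)} (h : Bad A S) (hST : S ⊆ T) : Bad A T :=
  convexHull_mono (Set.image_mono (by exact_mod_cast hST)) h

/-- colourful Caratheodory for the lifted points -/
lemma exists_rainbow {ι : Type*} [Fintype ι] [DecidableEq ι] (hι : Fintype.card ι = d + 1)
    (A : Set (E d)) (W : ι → Finset (E d)) (hW : ∀ i, Bad A (W i)) (x : E d) :
    ∃ w : ι → E d, (∀ i, w i ∈ W i) ∧
      (0 : V d) ∈ convexHull ℝ (lift A '' (insert x (Set.range w))) := by
  classical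
  obtain ⟨v, hv, h0⟩ := TH364.Colorful.colorful (E := V d) (ι := ι)
    (by rw [finrank_V, hι]) (fun i => (W i).image (lift A))
    (fun i => by simpa [Bad] using hW i) (lift A x)
  have h1 : ∀ i, ∃ w ∈ W i, lift A w = v i := fun i => by
    simpa using hv i
  choose w hw hwv using h1
  refine ⟨w, hw, ?_⟩
  rw [Set.image_insert_eq, ← Set.range_comp]
  have : lift A ∘ w = v := funext hwv
  rw [this]
  exact h0

/-- every point is in a bad `(d+2)`-set as soon as there is a bad set -/
lemma exists_bad_through {A : Set (E d)} {X S : Finset (E d)} (hX : d + 2 ≤ X.card)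
    (hSX : S ⊆ X) (hS : Bad A S) {x : E d} (hx : x ∈ X) :
    ∃ T ⊆ X, T.card = d + 2 ∧ x ∈ T ∧ Bad A T := by
  classical
  obtain ⟨w, hw, h0⟩ := exists_rainbow (ι := Fin (d + 1)) (by simp) A (fun _ => S)
    (fun _ => hS) x
  set T0 : Finset (E d) := insert x (Finset.univ.image w) with hT0
  have hT0c : T0.card ≤ d + 2 := by
    refine (Finset.card_insert_le _ _).trans ?_
    have := Finset.card_image_le (s := (Finset.univ : Finset (Fin (d + 1)))) (f := w)
    simp at this
    omega
  have hT0X : T0 ⊆ X := by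
    intro y hy
    rw [hT0, Finset.mem_insert, Finset.mem_image] at hy
    rcases hy with rfl | ⟨i, _, rfl⟩
    · exact hx
    · exact hSX (hw i)
  obtain ⟨T, hT0T, hTX, hTc⟩ := Finset.exists_subsuperset_card_eq hT0X hT0c hX
  refine ⟨T, hTX, hTc, hT0T (by rw [hT0]; exact Finset.mem_insert_self _ _), ?_⟩
  have hb : Bad A T0 := by
    unfold Bad
    rw [hT0]
    simpa using h0
  exact hb.mono hT0T

/-- a rainbow bad set through a prescribed point -/
lemma exists_bad_rainbow {A : Set (E d)} {X : Finset (E d)} (J : Finset (Finset (E d)))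
    (hJ : J.card = d + 1) (hJX : ∀ F ∈ J, F ⊆ X) (hJb : ∀ F ∈ J, Bad A F)
    (hdis : (J : Set (Finset (E d))).PairwiseDisjoint id) {x : E d} (hx : x ∈ X)
    (hxJ : ∀ F ∈ J, x ∉ F) :
    ∃ T ⊆ X, T.card = d + 2 ∧ x ∈ T ∧ Bad A T ∧ (∀ F ∈ J, ∃ y ∈ T, y ≠ x ∧ y ∈ F) ∧
      ∀ y ∈ T, y ≠ x → ∃ F ∈ J, y ∈ F := by
  classical
  obtain ⟨w, hw, h0⟩ := exists_rainbow (ι := J) (by simpa using hJ) A (fun F => (F : Finset (E d)))
    (fun F => hJb F F.2) x
  have hinj : Function.Injective w := by
    intro F G hFG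
    by_contra hne
    have h1 := hdis F.2 G.2 (fun h => hne (Subtype.ext h))
    have h2 := Finset.disjoint_left.1 h1 (hw F)
    rw [hFG] at h2
    exact h2 (hw G)
  have hxw : x ∉ Finset.univ.image w := by
    intro h
    obtain ⟨F, _, hF⟩ := Finset.mem_image.1 h
    exact hxJ F F.2 (hF ▸ hw F)
  refine ⟨insert x (Finset.univ.image w), ?_, ?_, Finset.mem_insert_self _ _, ?_, ?_, ?_⟩
  · intro y hy
    rw [Finset.mem_insert, Finset.mem_image] at hy
    rcases hy with rfl | ⟨F, _, rfl⟩
    · exact hx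
    · exact hJX F F.2 (hw F)
  · rw [Finset.card_insert_of_notMem hxw, Finset.card_image_of_injective _ hinj,
      Finset.card_univ, Fintype.card_coe, hJ]
  · unfold Bad
    simpa using h0
  · intro F hF
    refine ⟨w ⟨F, hF⟩, Finset.mem_insert_of_mem (Finset.mem_image_of_mem _ (Finset.mem_univ _)),
      ?_, hw ⟨F, hF⟩⟩
    intro h
    exact hxJ F hF (h ▸ hw ⟨F, hF⟩)
  · intro y hy hyx
    rw [Finset.mem_insert, Finset.mem_image] at hy
    rcases hy with rfl | ⟨F, _, rfl⟩
    · exact absurd rfl hyx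
    · exact ⟨F, F.2, hw F⟩

open Classical in
/-- the bad `(d+2)`-subsets of `X` -/
noncomputable def bads (A : Set (E d)) (X : Finset (E d)) : Finset (Finset (E d)) :=
  (X.powersetCard (d + 2)).filter (fun S => Bad A S)

lemma mem_bads {A : Set (E d)} {X S : Finset (E d)} :
    S ∈ bads A X ↔ S ⊆ X ∧ S.card = d + 2 ∧ Bad A S := by
  classical
  unfold bads
  rw [Finset.mem_filter, Finset.mem_powersetCard, and_assoc]

/-- double counting of the pairs `(x, T)` with `x ∈ T` and `T` bad -/
lemma sum_through (A : Set (E d)) (X : Finset (E d)) [DecidableEq (E d)] :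
    ∑ x ∈ X, ((bads A X).filter (fun T => x ∈ T)).card = (d + 2) * (bads A X).card := by
  classical
  have h1 : ∀ x ∈ X, ((bads A X).filter (fun T => x ∈ T)).card =
      ∑ T ∈ bads A X, if x ∈ T then 1 else 0 := by
    intro x _
    rw [Finset.card_filter]
  rw [Finset.sum_congr rfl h1, Finset.sum_comm]
  have h2 : ∀ T ∈ bads A X, (∑ x ∈ X, if x ∈ T then 1 else 0) = d + 2 := by
    intro T hT
    obtain ⟨hTX, hTc, _⟩ := mem_bads.1 hT
    rw [Finset.sum_ite_mem, Finset.inter_eq_right.2 hTX, Finset.sum_const, hTc, smul_eq_mul,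
      mul_one]
  rw [Finset.sum_congr rfl h2, Finset.sum_const, smul_eq_mul, mul_comm]

/-- first lower bound -/
lemma card_le_of_exists_bad {A : Set (E d)} {X : Finset (E d)} (hX : d + 2 ≤ X.card)
    (hb : (bads A X).Nonempty) : X.card ≤ (d + 2) * (bads A X).card := by
  classical
  obtain ⟨S, hS⟩ := hb
  obtain ⟨hSX, _, hSb⟩ := mem_bads.1 hS
  rw [← sum_through A X, Finset.card_eq_sum_ones]
  apply Finset.sum_le_sum
  intro x hx
  obtain ⟨T, hTX, hTc, hxT, hTb⟩ := exists_bad_through hX hSX hSb hx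
  exact Finset.card_pos.2 ⟨T, Finset.mem_filter.2 ⟨mem_bads.2 ⟨hTX, hTc, hTb⟩, hxT⟩⟩

/-- second lower bound -/
lemma choose_mul_le {A : Set (E d)} {X : Finset (E d)} (J : Finset (Finset (E d)))
    (hJ : J ⊆ bads A X) (hdis : (J : Set (Finset (E d))).PairwiseDisjoint id) :
    X.card * (J.card - 1).choose (d + 1) ≤ (d + 2) * (bads A X).card := by
  classical
  rw [← sum_through A X, Finset.card_eq_sum_ones, Finset.sum_mul]
  apply Finset.sum_le_sum
  intro x hx
  rw [one_mul]
  -- the members of `J` avoiding `x`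
  set Jx := J.filter (fun F => x ∉ F) with hJx
  have hJxc : J.card - 1 ≤ Jx.card := by
    have h1 : (J.filter (fun F => x ∈ F)).card ≤ 1 := by
      rw [Finset.card_le_one]
      intro F hF G hG
      rw [Finset.mem_filter] at hF hG
      by_contra hne
      exact Finset.disjoint_left.1 (hdis hF.1 hG.1 hne) hF.2 hG.2
    have h2 : (J.filter (fun F => x ∈ F)).card + Jx.card = J.card := by
      rw [hJx]
      convert Finset.card_filter_add_card_filter_not (s := J) (fun F => x ∈ F)
    omega
  refine (Nat.choose_le_choose _ hJxc).trans ?_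
  rw [← Finset.card_powersetCard]
  have hex : ∀ I ∈ Jx.powersetCard (d + 1), ∃ T, T ⊆ X ∧ T.card = d + 2 ∧ x ∈ T ∧ Bad A T ∧
      (∀ F ∈ I, ∃ y ∈ T, y ≠ x ∧ y ∈ F) ∧ ∀ y ∈ T, y ≠ x → ∃ F ∈ I, y ∈ F := by
    intro I hI
    rw [Finset.mem_powersetCard] at hI
    have hIJ : ∀ F ∈ I, F ∈ J ∧ x ∉ F := fun F hF => Finset.mem_filter.1 (hI.1 hF)
    exact exists_bad_rainbow I hI.2 (fun F hF => (mem_bads.1 (hJ (hIJ F hF).1)).1)
      (fun F hF => (mem_bads.1 (hJ (hIJ F hF).1)).2.2)
      (hdis.subset (fun F hF => (hIJ F hF).1)) hx (fun F hF => (hIJ F hF).2)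
  choose! T hTX hTc hxT hTb hT1 hT2 using hex
  apply Finset.card_le_card_of_injOn T
  · intro I hI
    rw [Finset.mem_coe, Finset.mem_filter]
    exact ⟨mem_bads.2 ⟨hTX I hI, hTc I hI, hTb I hI⟩, hxT I hI⟩
  · intro I hI I' hI' hII
    rw [Finset.mem_coe] at hI hI'
    have hsub : ∀ K ∈ Jx.powersetCard (d + 1), ∀ K' ∈ Jx.powersetCard (d + 1), T K = T K' →
        K ⊆ K' := by
      intro K hK K' hK' hT F hF
      obtain ⟨y, hy, hyx, hyF⟩ := hT1 K hK F hF
      rw [hT] at hy
      obtain ⟨G, hG, hyG⟩ := hT2 K' hK' y hy hyx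
      rw [Finset.mem_powersetCard] at hK hK'
      have hFJ := (Finset.mem_filter.1 (hK.1 hF)).1
      have hGJ := (Finset.mem_filter.1 (hK'.1 hG)).1
      have : F = G := by
        by_contra hne
        exact Finset.disjoint_left.1 (hdis hFJ hGJ hne) hyF hyG
      rw [this]; exact hG
    exact Finset.Subset.antisymm (hsub I hI I' hI' hII) (hsub I' hI' I hI hII.symm)

/-- a maximal family of pairwise disjoint bad sets -/
lemma exists_maximal_family (A : Set (E d)) (X : Finset (E d)) :
    ∃ J ⊆ bads A X, (J : Set (Finset (E d))).PairwiseDisjoint id ∧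
      ∀ S ∈ bads A X, ∃ F ∈ J, ¬ Disjoint S F := by
  classical
  set P := (bads A X).powerset.filter
    (fun (J : Finset (Finset (E d))) => (J : Set (Finset (E d))).PairwiseDisjoint id) with hP
  have hne : P.Nonempty := ⟨∅, by simp [hP]⟩
  obtain ⟨J, hJP, hJmax⟩ := P.exists_max_image Finset.card hne
  rw [hP, Finset.mem_filter, Finset.mem_powerset] at hJP
  refine ⟨J, hJP.1, hJP.2, ?_⟩
  intro S hS
  by_contra hno
  push Not at hno
  have hSJ : S ∉ J := by
    intro h
    have h1 := hno S h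
    rw [disjoint_self] at h1
    have := (mem_bads.1 hS).2.1
    rw [Finset.bot_eq_empty] at h1
    rw [h1] at this
    simp at this
  have h2 := hJmax (insert S J) (by
    rw [hP, Finset.mem_filter, Finset.mem_powerset]
    refine ⟨Finset.insert_subset hS hJP.1, ?_⟩
    rw [Finset.coe_insert]
    rw [Set.pairwiseDisjoint_insert]
    exact ⟨hJP.2, fun F hF _ => hno F hF⟩)
  rw [Finset.card_insert_of_notMem hSJ] at h2
  omega

/-- a bad set with at least `d + 2` points contains a bad set with exactly `d + 2` points -/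
lemma exists_bad_subset {A : Set (E d)} {S : Finset (E d)} (hS : Bad A S) (hc : d + 2 ≤ S.card) :
    ∃ T ⊆ S, T.card = d + 2 ∧ Bad A T := by
  classical
  unfold Bad at hS
  rw [convexHull_eq_union] at hS
  simp only [Set.mem_iUnion] at hS
  obtain ⟨t, ht, hai, h0⟩ := hS
  have htc : t.card ≤ d + 2 := by
    have h1 := hai.card_le_finrank_succ
    rw [Fintype.card_coe] at h1
    have h2 : finrank ℝ (vectorSpan ℝ (Set.range (Subtype.val : t → V d))) ≤ d + 1 := by
      rw [← finrank_V d]; exact Submodule.finrank_le _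
    omega
  -- the preimage of `t`
  set T0 := S.filter (fun x => lift A x ∈ t) with hT0
  have himg : T0.image (lift A) = t := by
    ext y
    rw [Finset.mem_image]
    constructor
    · rintro ⟨x, hx, rfl⟩
      exact (Finset.mem_filter.1 hx).2
    · intro hy
      obtain ⟨x, hx, hxy⟩ := ht (Finset.mem_coe.2 hy)
      exact ⟨x, Finset.mem_filter.2 ⟨by exact_mod_cast hx, by rw [hxy]; exact hy⟩, hxy⟩
  have hT0c : T0.card = t.card := by
    rw [← himg, Finset.card_image_of_injective _ (lift_injOn A)]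
  have hT0S : T0 ⊆ S := by rw [hT0]; exact Finset.filter_subset _ _
  have hT0d : T0.card ≤ d + 2 := by rw [hT0c]; exact htc
  obtain ⟨T, h1, h2, h3⟩ := Finset.exists_subsuperset_card_eq hT0S hT0d hc
  refine ⟨T, h2, h3, ?_⟩
  have hb : Bad A T0 := by
    unfold Bad
    rw [← Finset.coe_image, himg]
    exact h0
  exact hb.mono h1

end Pool.Agent.Y380.KP
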