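import Mathlib
import Pool.Agent.TH364.Colorful

/-!
# Separation of two finite sets in `ℝ ^ d` and the lifted points

`P` and `Q` are separated by a hyperplane iff the origin is not in the convex hull of the
vectors `(x, 1)`, `x ∈ P`, and `-(y, 1)`, `y ∈ Q`.
-/

set_option autoImplicit false

open Module

namespace Pool.Agent.Y380.KP

/-- the space `ℝ ^ d` -/
abbrev E (d : ℕ) := EuclideanSpace ℝ (Fin d)

/-- the space of the lifted points -/
abbrev V (d : ℕ) := WithLp 2 (E d × ℝ)

lemma finrank_V (d : ℕ) : finrank ℝ (V d) = d + 1 := by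
  have h : finrank ℝ (V d) = finrank ℝ (E d × ℝ) :=
    (WithLp.linearEquiv 2 ℝ (E d × ℝ)).finrank_eq
  rw [h, Module.finrank_prod, finrank_euclideanSpace, Fintype.card_fin, finrank_self]

/-- `P` lies in one open half-space of a hyperplane and `Q` in the other -/
def Sep {d : ℕ} (P Q : Set (E d)) : Prop :=
  ∃ (u : E d) (c : ℝ), u ≠ 0 ∧ (∀ x ∈ P, c < inner ℝ u x) ∧ ∀ y ∈ Q, inner ℝ u y < c

lemma Sep.mono {d : ℕ} {P Q P' Q' : Set (E d)} (h : Sep P Q) (hP : P' ⊆ P) (hQ : Q' ⊆ Q) :
    Sep P' Q' := by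
  obtain ⟨u, c, hu, h1, h2⟩ := h
  exact ⟨u, c, hu, fun x hx => h1 x (hP hx), fun y hy => h2 y (hQ hy)⟩

/-- the lifted point: `(x, 1)` for `x ∈ A` and `-(x, 1)` for `x ∉ A` -/
noncomputable def lift {d : ℕ} (A : Set (E d)) (x : E d) : V d := by
  classical
  exact if x ∈ A then WithLp.toLp 2 (x, (1 : ℝ)) else - WithLp.toLp 2 (x, (1 : ℝ))

lemma lift_mem {d : ℕ} {A : Set (E d)} {x : E d} (hx : x ∈ A) :
    lift A x = WithLp.toLp 2 (x, (1 : ℝ)) := by
  classical
  unfold lift; rw [if_pos hx]

lemma lift_notMem {d : ℕ} {A : Set (E d)} {x : E d} (hx : x ∉ A) :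
    lift A x = - WithLp.toLp 2 (x, (1 : ℝ)) := by
  classical
  unfold lift; rw [if_neg hx]

lemma inner_lift_mem {d : ℕ} {A : Set (E d)} {x : E d} (hx : x ∈ A) (z : V d) :
    inner ℝ z (lift A x) = inner ℝ (WithLp.ofLp z).1 x + (WithLp.ofLp z).2 := by
  rw [lift_mem hx, WithLp.prod_inner_apply]
  simp

lemma inner_lift_notMem {d : ℕ} {A : Set (E d)} {x : E d} (hx : x ∉ A) (z : V d) :
    inner ℝ z (lift A x) = - (inner ℝ (WithLp.ofLp z).1 x + (WithLp.ofLp z).2) := by
  rw [lift_notMem hx, inner_neg_right, WithLp.prod_inner_apply]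
  simp

lemma lift_injOn {d : ℕ} (A : Set (E d)) : Function.Injective (lift A) := by
  intro x y h
  by_cases hx : x ∈ A <;> by_cases hy : y ∈ A
  · rw [lift_mem hx, lift_mem hy] at h
    have := congrArg (fun z : V d => (WithLp.ofLp z).1) h
    simpa using this
  · rw [lift_mem hx, lift_notMem hy] at h
    have := congrArg (fun z : V d => (WithLp.ofLp z).2) h
    simp at this
    norm_num at this
  · rw [lift_notMem hx, lift_mem hy] at h
    have := congrArg (fun z : V d => (WithLp.ofLp z).2) h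
    simp at this
    norm_num at this
  · rw [lift_notMem hx, lift_notMem hy] at h
    have := congrArg (fun z : V d => (WithLp.ofLp z).1) h
    simpa using this

/-- a finite set lies strictly on one side of some hyperplane -/
lemma exists_side {d : ℕ} (hd : 1 ≤ d) (P : Finset (E d)) :
    ∃ (u : E d) (c : ℝ), u ≠ 0 ∧ ∀ x ∈ P, c < inner ℝ u x := by
  have : Nonempty (Fin d) := ⟨⟨0, hd⟩⟩
  have : Nontrivial (E d) := inferInstance
  obtain ⟨u, hu⟩ := exists_ne (0 : E d)
  rcases P.eq_empty_or_nonempty with rfl | hP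
  · exact ⟨u, 0, hu, by simp⟩
  · obtain ⟨x0, _, hmin⟩ := P.exists_min_image (fun x => inner ℝ u x) hP
    refine ⟨u, inner ℝ u x0 - 1, hu, fun x hx => ?_⟩
    have := hmin x hx
    linarith

lemma sep_empty_right {d : ℕ} (hd : 1 ≤ d) (P : Finset (E d)) :
    Sep (P : Set (E d)) (∅ : Set (E d)) := by
  obtain ⟨u, c, hu, h⟩ := exists_side hd P
  exact ⟨u, c, hu, fun x hx => h x (by exact_mod_cast hx), by simp⟩

lemma sep_empty_left {d : ℕ} (hd : 1 ≤ d) (Q : Finset (E d)) :
    Sep (∅ : Set (E d)) (Q : Set (E d)) := by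
  obtain ⟨u, c, hu, h⟩ := exists_side hd Q
  refine ⟨-u, -c, neg_ne_zero.2 hu, by simp, fun y hy => ?_⟩
  rw [inner_neg_left]
  have := h y (by exact_mod_cast hy)
  linarith

/-- if the origin is not in the hull of the lifted points then the two parts are separated -/
lemma sep_of_zero_notMem {d : ℕ} (hd : 1 ≤ d) (A : Set (E d)) (S : Finset (E d))
    (h0 : (0 : V d) ∉ convexHull ℝ (lift A '' (S : Set (E d)))) :
    Sep ((S : Set (E d)) ∩ A) ((S : Set (E d)) \ A) := by
  classical
  rcases S.eq_empty_or_nonempty with rfl | hS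
  · have := sep_empty_right hd (∅ : Finset (E d))
    simpa using this
  have hfin : (lift A '' (S : Set (E d))).Finite := S.finite_toSet.image _
  have hne : (convexHull ℝ (lift A '' (S : Set (E d)))).Nonempty := by
    rw [convexHull_nonempty_iff]
    obtain ⟨x, hx⟩ := hS
    exact ⟨_, x, hx, rfl⟩
  obtain ⟨z, hz, hmin⟩ := TH364.Colorful.exists_near
    (TH364.Colorful.compact_hull _ hfin) hne (convex_convexHull ℝ _)
  have hz0 : z ≠ 0 := by
    rintro rfl; exact h0 hz
  have hpos : 0 < inner ℝ z z := by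
    rw [real_inner_self_eq_norm_sq]; positivity
  have key : ∀ x ∈ S, 0 < inner ℝ z (lift A x) := fun x hx =>
    lt_of_lt_of_le hpos (hmin _ (subset_convexHull ℝ _ ⟨x, by exact_mod_cast hx, rfl⟩))
  have h1 : ∀ x ∈ S, x ∈ A → 0 < inner ℝ (WithLp.ofLp z).1 x + (WithLp.ofLp z).2 := by
    intro x hx hxA
    rw [← inner_lift_mem hxA]; exact key x hx
  have h2 : ∀ x ∈ S, x ∉ A → inner ℝ (WithLp.ofLp z).1 x + (WithLp.ofLp z).2 < 0 := by
    intro x hx hxA
    have := key x hx
    rw [inner_lift_notMem hxA] at this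
    linarith
  by_cases hu : (WithLp.ofLp z).1 = 0
  · -- one of the two parts is empty
    rw [hu] at h1 h2
    simp only [inner_zero_left, zero_add] at h1 h2
    rcases le_or_gt (WithLp.ofLp z).2 0 with hc | hc
    · have hA : (S : Set (E d)) ∩ A = ∅ := by
        ext x
        simp only [Set.mem_inter_iff, Finset.mem_coe, Set.mem_empty_iff_false, iff_false]
        rintro ⟨hx, hxA⟩
        have := h1 x hx hxA
        linarith
      rw [hA]
      exact (sep_empty_left hd S).mono subset_rfl Set.sdiff_subset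
    · have hB : (S : Set (E d)) \ A = ∅ := by
        ext x
        simp only [Set.mem_sdiff, Finset.mem_coe, Set.mem_empty_iff_false, iff_false]
        rintro ⟨hx, hxA⟩
        have := h2 x hx hxA
        linarith
      rw [hB]
      exact (sep_empty_right hd S).mono Set.inter_subset_left subset_rfl
  · refine ⟨(WithLp.ofLp z).1, -(WithLp.ofLp z).2, hu, ?_, ?_⟩
    · rintro x ⟨hx, hxA⟩
      have := h1 x hx hxA
      linarith
    · rintro x ⟨hx, hxA⟩
      have := h2 x hx hxA
      linarith

/-- if the origin is in the hull of the lifted points then the two parts are not separated -/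
lemma not_sep_of_zero_mem {d : ℕ} (A : Set (E d)) (S : Set (E d))
    (h0 : (0 : V d) ∈ convexHull ℝ (lift A '' S)) :
    ¬ Sep (S ∩ A) (S \ A) := by
  rintro ⟨u, c, hu, h1, h2⟩
  let z : V d := WithLp.toLp 2 (u, -c)
  have hsub : convexHull ℝ (lift A '' S) ⊆ {x | 0 < inner ℝ z x} := by
    refine convexHull_min ?_ ?_
    · rintro _ ⟨x, hx, rfl⟩
      by_cases hxA : x ∈ A
      · have := h1 x ⟨hx, hxA⟩
        simp only [Set.mem_ofPred_eq]
        rw [inner_lift_mem hxA]
        simp only [z]
        linarith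
      · have := h2 x ⟨hx, hxA⟩
        simp only [Set.mem_ofPred_eq]
        rw [inner_lift_notMem hxA]
        simp only [z]
        linarith
    · exact convex_halfSpace_gt (IsLinearMap.mk (fun x y => inner_add_right _ _ _)
        (fun c x => real_inner_smul_right _ _ _)) 0
  have := hsub h0
  simp at this

end Pool.Agent.Y380.KP
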