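import Pool.Agent.Y380.KP.Count

/-!
# A positive-fraction version of Kirchberger's theorem

If all but an `ε`-fraction of the `(d+2)`-subsets of `A ∪ B` are good then all but at most
`2 (d+2)^2 ε^(1/(d+1)) N` points of each of `A` and `B` can be kept so that the rest is separated
by a hyperplane.
-/

set_option autoImplicit false

open Module

namespace Pool.Agent.Y380.KP

variable {d : ℕ}

/-- the analytic bound: a maximal family of disjoint bad sets is small -/
lemma family_bound (n s M : ℕ) (ε : ℝ) (hε : 0 ≤ ε) (hn : 1 ≤ n)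
    (hM : (M : ℝ) ≤ ε * (n.choose (d + 2) : ℝ)) (h1 : n ≤ (d + 2) * M)
    (h2 : n * (s - 1).choose (d + 1) ≤ (d + 2) * M) :
    (1 : ℝ) ≤ n * ε ^ ((1 : ℝ) / (d + 1)) ∧
      (s : ℝ) ≤ (d + 2) * (n * ε ^ ((1 : ℝ) / (d + 1))) := by
  set t : ℝ := ε ^ ((1 : ℝ) / (d + 1)) with ht
  have ht0 : 0 ≤ t := Real.rpow_nonneg hε _
  have htp : t ^ (d + 1) = ε := by
    rw [ht, ← Real.rpow_natCast, ← Real.rpow_mul hε]
    have : (1 : ℝ) / (d + 1) * ((d + 1 : ℕ) : ℝ) = 1 := by
      push_cast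
      field_simp
    rw [this, Real.rpow_one]
  obtain ⟨m, rfl⟩ : ∃ m, n = m + 1 := ⟨n - 1, by omega⟩
  have hid : ((m + 1 : ℕ) : ℝ) * (m.choose (d + 1) : ℝ) =
      ((m + 1).choose (d + 2) : ℝ) * (d + 2) := by
    have := Nat.add_one_mul_choose_eq m (d + 1)
    have h' : ((m + 1) * m.choose (d + 1) : ℕ) = (m + 1).choose (d + 2) * (d + 2) := this
    exact_mod_cast h'
  have hm0 : (0 : ℝ) < ((m + 1 : ℕ) : ℝ) := by positivity
  have hMd : ((d : ℝ) + 2) * M ≤ ((m + 1 : ℕ) : ℝ) * (ε * (m.choose (d + 1) : ℝ)) := by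
    have h3 : ((d : ℝ) + 2) * M ≤ (d + 2) * (ε * ((m + 1).choose (d + 2) : ℝ)) :=
      mul_le_mul_of_nonneg_left hM (by positivity)
    have h4 : ((d : ℝ) + 2) * (ε * ((m + 1).choose (d + 2) : ℝ)) =
        ((m + 1 : ℕ) : ℝ) * (ε * (m.choose (d + 1) : ℝ)) := by
      rw [mul_left_comm, mul_comm ((d : ℝ) + 2), ← hid]; ring
    linarith
  have hA : (1 : ℝ) ≤ ε * (m.choose (d + 1) : ℝ) := by
    have h3 : ((m + 1 : ℕ) : ℝ) ≤ ((d : ℝ) + 2) * M := by exact_mod_cast h1
    have h4 : ((m + 1 : ℕ) : ℝ) * 1 ≤ ((m + 1 : ℕ) : ℝ) * (ε * (m.choose (d + 1) : ℝ)) := by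
      linarith
    exact le_of_mul_le_mul_left h4 hm0
  have hB : ((s - 1).choose (d + 1) : ℝ) ≤ ε * (m.choose (d + 1) : ℝ) := by
    have h3 : ((m + 1 : ℕ) : ℝ) * ((s - 1).choose (d + 1) : ℝ) ≤ ((d : ℝ) + 2) * M := by
      exact_mod_cast h2
    exact le_of_mul_le_mul_left (h3.trans hMd) hm0
  have hfac : (m.descFactorial (d + 1) : ℝ) = ((d + 1).factorial : ℝ) * (m.choose (d + 1) : ℝ) := by
    exact_mod_cast Nat.descFactorial_eq_factorial_mul_choose m (d + 1)
  have hfac' : ((s - 1).descFactorial (d + 1) : ℝ) =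
      ((d + 1).factorial : ℝ) * ((s - 1).choose (d + 1) : ℝ) := by
    exact_mod_cast Nat.descFactorial_eq_factorial_mul_choose (s - 1) (d + 1)
  have hdm : (m.descFactorial (d + 1) : ℝ) ≤ ((m + 1 : ℕ) : ℝ) ^ (d + 1) := by
    have h3 : (m.descFactorial (d + 1) : ℝ) ≤ (m : ℝ) ^ (d + 1) := by
      exact_mod_cast Nat.descFactorial_le_pow m (d + 1)
    refine h3.trans (pow_le_pow_left₀ (by positivity) (by push_cast; linarith) _)
  have hfpos : (1 : ℝ) ≤ ((d + 1).factorial : ℝ) := by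
    exact_mod_cast Nat.one_le_iff_ne_zero.2 (Nat.factorial_ne_zero _)
  have hupper : ε * (m.descFactorial (d + 1) : ℝ) ≤ (((m + 1 : ℕ) : ℝ) * t) ^ (d + 1) := by
    rw [mul_pow, htp, mul_comm]
    exact mul_le_mul_of_nonneg_right hdm hε
  have hnt0 : 0 ≤ ((m + 1 : ℕ) : ℝ) * t := by positivity
  constructor
  · have h3 : (1 : ℝ) ^ (d + 1) ≤ (((m + 1 : ℕ) : ℝ) * t) ^ (d + 1) := by
      refine le_trans ?_ hupper
      rw [hfac, one_pow]
      have h5 : ε * (((d + 1).factorial : ℝ) * (m.choose (d + 1) : ℝ)) =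
          ((d + 1).factorial : ℝ) * (ε * (m.choose (d + 1) : ℝ)) := by ring
      rw [h5]
      nlinarith
    exact le_of_pow_le_pow_left₀ (by omega) hnt0 h3
  · have h1t : (1 : ℝ) ≤ ((m + 1 : ℕ) : ℝ) * t := by
      have h3 : (1 : ℝ) ^ (d + 1) ≤ (((m + 1 : ℕ) : ℝ) * t) ^ (d + 1) := by
        refine le_trans ?_ hupper
        rw [hfac, one_pow]
        have h5 : ε * (((d + 1).factorial : ℝ) * (m.choose (d + 1) : ℝ)) =
            ((d + 1).factorial : ℝ) * (ε * (m.choose (d + 1) : ℝ)) := by ring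
        rw [h5]
        nlinarith
      exact le_of_pow_le_pow_left₀ (by omega) hnt0 h3
    have h3 : (((s - 1 + 1 - (d + 1) : ℕ) : ℝ)) ^ (d + 1) ≤ (((m + 1 : ℕ) : ℝ) * t) ^ (d + 1) := by
      have h4 : (((s - 1 + 1 - (d + 1) : ℕ) : ℝ)) ^ (d + 1) ≤
          ((s - 1).descFactorial (d + 1) : ℝ) := by
        exact_mod_cast Nat.pow_sub_le_descFactorial (s - 1) (d + 1)
      refine h4.trans (le_trans ?_ hupper)
      rw [hfac, hfac']
      have h5 : ε * (((d + 1).factorial : ℝ) * (m.choose (d + 1) : ℝ)) =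
          ((d + 1).factorial : ℝ) * (ε * (m.choose (d + 1) : ℝ)) := by ring
      rw [h5]
      exact mul_le_mul_of_nonneg_left hB (by positivity)
    have h6 : ((s - 1 + 1 - (d + 1) : ℕ) : ℝ) ≤ ((m + 1 : ℕ) : ℝ) * t :=
      le_of_pow_le_pow_left₀ (by omega) hnt0 h3
    have h7 : (s : ℝ) ≤ ((s - 1 + 1 - (d + 1) : ℕ) : ℝ) + (d + 1) := by
      have : s ≤ (s - 1 + 1 - (d + 1)) + (d + 1) := by omega
      exact_mod_cast this
    have hd0 : (0 : ℝ) ≤ d := Nat.cast_nonneg d
    nlinarith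

/-- the main statement for at least `d + 2` points -/
theorem main_large (hd : 1 ≤ d) (ε : ℝ) (hε : 0 ≤ ε) (N : ℕ) (A B : Finset (E d))
    (hAB : Disjoint A B) (hA : A.card = N) (hB : B.card = N) (hN : d + 2 ≤ 2 * N)
    [DecidableEq (E d)]
    (hbad : ((bads (A : Set (E d)) (A ∪ B)).card : ℝ) ≤ ε * ((2 * N).choose (d + 2) : ℝ)) :
    ∃ A' ⊆ A, ∃ B' ⊆ B, Sep (A' : Set (E d)) (B' : Set (E d)) ∧
      (1 - 2 * (d + 2) ^ 2 * ε ^ ((1 : ℝ) / (d + 1))) * N ≤ A'.card ∧
      (1 - 2 * (d + 2) ^ 2 * ε ^ ((1 : ℝ) / (d + 1))) * N ≤ B'.card := by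
  classical
  set t : ℝ := ε ^ ((1 : ℝ) / (d + 1)) with ht
  have ht0 : 0 ≤ t := Real.rpow_nonneg hε _
  set X := A ∪ B with hX
  have hXc : X.card = 2 * N := by
    rw [hX, Finset.card_union_of_disjoint hAB, hA, hB]; ring
  obtain ⟨J, hJb, hJd, hJm⟩ := exists_maximal_family (A : Set (E d)) X
  set R := J.biUnion id with hR
  have hRc : R.card ≤ J.card * (d + 2) := by
    apply Finset.card_biUnion_le_card_mul
    intro F hF
    exact (mem_bads.1 (hJb hF)).2.1.le
  have hRX : R ⊆ X := by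
    rw [hR, Finset.biUnion_subset]
    intro F hF
    exact (mem_bads.1 (hJb hF)).1
  -- the bound on the number of members of the family
  have hJbound : J.Nonempty → (1 : ℝ) ≤ ((2 * N : ℕ) : ℝ) * t ∧
      (J.card : ℝ) ≤ (d + 2) * (((2 * N : ℕ) : ℝ) * t) := by
    rintro ⟨F, hF⟩
    refine family_bound (2 * N) J.card (bads (A : Set (E d)) X).card ε hε (by omega) hbad ?_ ?_
    · rw [← hXc]
      exact card_le_of_exists_bad (by omega) ⟨F, hJb hF⟩
    · rw [← hXc]
      exact choose_mul_le J hJb hJd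
  have hJcard : (J.card : ℝ) ≤ (d + 2) * (((2 * N : ℕ) : ℝ) * t) := by
    rcases J.eq_empty_or_nonempty with h | h
    · rw [h]; simp only [Finset.card_empty, Nat.cast_zero]; positivity
    · exact (hJbound h).2
  have hN0 : (0 : ℝ) ≤ N := Nat.cast_nonneg N
  have hd0 : (0 : ℝ) ≤ d := Nat.cast_nonneg d
  have hRreal : (R.card : ℝ) ≤ 2 * (d + 2) ^ 2 * t * N := by
    have h1 : (R.card : ℝ) ≤ J.card * (d + 2) := by exact_mod_cast hRc
    have h2 : (J.card : ℝ) * (d + 2) ≤ (d + 2) * (((2 * N : ℕ) : ℝ) * t) * (d + 2) :=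
      mul_le_mul_of_nonneg_right hJcard (by positivity)
    have h3 : ((d : ℝ) + 2) * (((2 * N : ℕ) : ℝ) * t) * (d + 2) = 2 * (d + 2) ^ 2 * t * N := by
      push_cast; ring
    linarith
  rcases Nat.lt_or_ge (X \ R).card (d + 2) with hlt | hge
  · -- few points are left: then the bound is trivial
    refine ⟨∅, Finset.empty_subset _, ∅, Finset.empty_subset _, ?_, ?_⟩
    · have := sep_empty_right hd (∅ : Finset (E d))
      simpa using this
    · have hJne : J.Nonempty := by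
        by_contra h
        rw [Finset.not_nonempty_iff_eq_empty] at h
        rw [hR, h] at hlt
        simp only [Finset.biUnion_empty, Finset.sdiff_empty] at hlt
        omega
      obtain ⟨h1, h2⟩ := hJbound hJne
      have h3 : X.card = (X \ R).card + R.card := by
        rw [Finset.card_sdiff_add_card, Finset.union_eq_left.2 hRX]
      have h4 : (2 : ℝ) * N ≤ (d + 1) + R.card := by
        have : 2 * N ≤ (d + 1) + R.card := by omega
        exact_mod_cast this
      have h5 : ((d : ℝ) + 1) ≤ (d + 1) * (2 * N * t) := by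
        push_cast at h1
        nlinarith
      have h6 : (1 - 2 * (d + 2) ^ 2 * t) * (N : ℝ) ≤ 0 := by
        nlinarith [mul_nonneg (mul_nonneg hN0 ht0) (sq_nonneg ((d : ℝ) + 1)),
          mul_nonneg (mul_nonneg hN0 ht0) hd0]
      simp only [Finset.card_empty, Nat.cast_zero]
      exact ⟨h6, h6⟩
  · -- the remaining points are separated
    have hnb : ¬ Bad (A : Set (E d)) (X \ R) := by
      intro hb
      obtain ⟨T, hTX, hTc, hTb⟩ := exists_bad_subset hb hge
      obtain ⟨F, hF, hTF⟩ := hJm T (mem_bads.2 ⟨hTX.trans Finset.sdiff_subset, hTc, hTb⟩)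
      apply hTF
      rw [Finset.disjoint_left]
      intro y hyT hyF
      have := hTX hyT
      rw [Finset.mem_sdiff] at this
      exact this.2 (Finset.mem_biUnion.2 ⟨F, hF, hyF⟩)
    have hsep := sep_of_zero_notMem hd (A : Set (E d)) (X \ R) hnb
    have hcardge : ∀ C : Finset (E d), C.card = N →
        (1 - 2 * (d + 2) ^ 2 * t) * (N : ℝ) ≤ ((C \ R).card : ℝ) := by
      intro C hC
      have h1 : C.card ≤ (C \ R).card + R.card := by
        exact Finset.card_le_card_sdiff_add_card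
      have h2 : (N : ℝ) ≤ (C \ R).card + R.card := by rw [← hC]; exact_mod_cast h1
      linarith
    refine ⟨A \ R, Finset.sdiff_subset, B \ R, Finset.sdiff_subset, ?_, hcardge A hA,
      hcardge B hB⟩
    refine hsep.mono ?_ ?_
    · intro x hx
      rw [Finset.mem_coe, Finset.mem_sdiff] at hx
      refine ⟨?_, by exact_mod_cast hx.1⟩
      rw [Finset.mem_coe, Finset.mem_sdiff]
      exact ⟨Finset.mem_union_left _ hx.1, hx.2⟩
    · intro x hx
      rw [Finset.mem_coe, Finset.mem_sdiff] at hx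
      refine ⟨?_, ?_⟩
      · rw [Finset.mem_coe, Finset.mem_sdiff]
        exact ⟨Finset.mem_union_right _ hx.1, hx.2⟩
      · intro hxA
        exact Finset.disjoint_left.1 hAB (by exact_mod_cast hxA) hx.1

/-- affinely independent points are separated -/
lemma sep_of_affineIndependent (hd : 1 ≤ d) (A B : Finset (E d)) (hAB : Disjoint A B)
    (h : AffineIndependent ℝ (Subtype.val : ↥((A : Set (E d)) ∪ (B : Set (E d))) → E d)) :
    Sep (A : Set (E d)) (B : Set (E d)) := by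
  classical
  have hnb : ¬ Bad (A : Set (E d)) (A ∪ B) := by
    intro hb
    unfold Bad at hb
    rw [Finset.coe_union] at hb
    obtain ⟨κ, _, v, c, hvr, hai, hc, hc1, hcz⟩ := eq_pos_convex_span_of_mem_convexHull hb
    have hx : ∀ k, ∃ x : ↥((A : Set (E d)) ∪ (B : Set (E d))), lift (A : Set (E d)) x = v k := by
      intro k
      obtain ⟨x, hx, hxk⟩ := hvr ⟨k, rfl⟩
      exact ⟨⟨x, hx⟩, hxk⟩
    choose x hx using hx
    have hxinj : Function.Injective x := by
      intro i j hij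
      apply hai.injective
      rw [← hx i, ← hx j, hij]
    -- signs
    let σ : κ → ℝ := fun k => if ((x k : E d) ∈ (A : Set (E d))) then 1 else -1
    have hσ : ∀ k, v k = σ k • (WithLp.toLp 2 ((x k : E d), (1 : ℝ)) : V d) := by
      intro k
      rw [← hx k]
      by_cases hk : (x k : E d) ∈ (A : Set (E d))
      · rw [lift_mem hk]; simp only [σ, if_pos hk, one_smul]
      · rw [lift_notMem hk]; simp only [σ, if_neg hk, neg_smul, one_smul]
    have hσ0 : ∀ k, σ k ≠ 0 := by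
      intro k
      simp only [σ]
      split_ifs <;> norm_num
    have hsum : ∑ k, (c k * σ k) • (WithLp.toLp 2 ((x k : E d), (1 : ℝ)) : V d) = 0 := by
      rw [← hcz]
      refine Finset.sum_congr rfl fun k _ => ?_
      rw [hσ k, smul_smul]
    have hsum1 : ∑ k, (c k * σ k) • (x k : E d) = 0 := by
      have h1 := congrArg (fun z : V d => (WithLp.linearEquiv 2 ℝ (E d × ℝ) z).1) hsum
      simp only [map_sum, map_smul, Prod.fst_sum, Prod.smul_fst] at h1
      simpa using h1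
    have hsum2 : ∑ k, (c k * σ k) = 0 := by
      have h1 := congrArg (fun z : V d => (WithLp.linearEquiv 2 ℝ (E d × ℝ) z).2) hsum
      simp only [map_sum, map_smul, Prod.snd_sum, Prod.smul_snd] at h1
      simpa using h1
    have hai' : AffineIndependent ℝ (fun k => (x k : E d)) := h.comp_embedding ⟨x, hxinj⟩
    have hk : Nonempty κ := by
      by_contra hno
      rw [not_nonempty_iff] at hno
      rw [Fintype.sum_empty] at hc1
      norm_num at hc1
    obtain ⟨k⟩ := hk
    have h2 := (affineIndependent_iff.1 hai') Finset.univ (fun k => c k * σ k) hsum2 hsum1 k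
      (Finset.mem_univ k)
    rcases mul_eq_zero.1 h2 with h3 | h3
    · exact (hc k).ne' h3
    · exact hσ0 k h3
  refine (sep_of_zero_notMem hd (A : Set (E d)) (A ∪ B) hnb).mono ?_ ?_
  · intro x hx
    refine ⟨?_, hx⟩
    rw [Finset.coe_union]; exact Or.inl hx
  · intro x hx
    refine ⟨?_, ?_⟩
    · rw [Finset.coe_union]; exact Or.inr hx
    · intro hxA
      exact Finset.disjoint_left.1 hAB (by exact_mod_cast hxA) (by exact_mod_cast hx)

/-- the number of good sets and the number of bad sets -/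
lemma card_good_add (A B : Finset (E d)) (hAB : Disjoint A B) (N : ℕ) (hA : A.card = N)
    (hB : B.card = N) [DecidableEq (E d)] :
    Nat.card {S : Finset (E d) // (S : Set (E d)) ⊆ (A : Set (E d)) ∪ (B : Set (E d)) ∧
      S.card = d + 2 ∧ Sep ((A : Set (E d)) ∩ S) ((B : Set (E d)) ∩ S)} +
      (bads (A : Set (E d)) (A ∪ B)).card ≤ (2 * N).choose (d + 2) := by
  classical
  have hXc : (A ∪ B).card = 2 * N := by
    rw [Finset.card_union_of_disjoint hAB, hA, hB]; ring
  set G := ((A ∪ B).powersetCard (d + 2)).filter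
    (fun (S : Finset (E d)) =>
      Sep ((A : Set (E d)) ∩ (S : Set (E d))) ((B : Set (E d)) ∩ (S : Set (E d)))) with hG
  have h1 : Nat.card {S : Finset (E d) // (S : Set (E d)) ⊆ (A : Set (E d)) ∪ (B : Set (E d)) ∧
      S.card = d + 2 ∧ Sep ((A : Set (E d)) ∩ S) ((B : Set (E d)) ∩ S)} = G.card := by
    rw [← Nat.card_eq_finsetCard]
    apply Nat.card_congr
    refine Equiv.subtypeEquivRight fun S => ?_
    rw [hG, Finset.mem_filter, Finset.mem_powersetCard, ← Finset.coe_union, Finset.coe_subset,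
      and_assoc]
  rw [h1]
  have hdisj : Disjoint G (bads (A : Set (E d)) (A ∪ B)) := by
    rw [Finset.disjoint_left]
    intro S hS hSb
    rw [hG, Finset.mem_filter] at hS
    obtain ⟨hSX, _, hSb⟩ := mem_bads.1 hSb
    refine not_sep_of_zero_mem (A : Set (E d)) (S : Set (E d)) hSb (hS.2.mono ?_ ?_)
    · rintro x ⟨h1, h2⟩; exact ⟨h2, h1⟩
    · rintro x ⟨h1, h2⟩
      refine ⟨?_, h1⟩
      have := hSX (by exact_mod_cast h1)
      rw [Finset.mem_union] at this
      rcases this with h | h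
      · exact absurd (by exact_mod_cast h) h2
      · exact_mod_cast h
  rw [← Finset.card_union_of_disjoint hdisj, ← hXc, ← Finset.card_powersetCard]
  apply Finset.card_le_card
  apply Finset.union_subset
  · rw [hG]; exact Finset.filter_subset _ _
  · intro S hS
    obtain ⟨hSX, hSc, _⟩ := mem_bads.1 hS
    exact Finset.mem_powersetCard.2 ⟨hSX, hSc⟩

/-- **Positive-fraction Kirchberger theorem.** -/
theorem main (hd : 1 ≤ d) (ε : ℝ) (hε : 0 ≤ ε) (N : ℕ) (A B : Finset (E d))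
    (hAB : Disjoint A B) (hA : A.card = N) (hB : B.card = N)
    (hN : d + 2 ≤ 2 * N ∨
      AffineIndependent ℝ (Subtype.val : ↥((A : Set (E d)) ∪ (B : Set (E d))) → E d))
    (hgood : (1 - ε) * ((2 * N).choose (d + 2) : ℝ) ≤
      (Nat.card {S : Finset (E d) // (S : Set (E d)) ⊆ (A : Set (E d)) ∪ (B : Set (E d)) ∧
        S.card = d + 2 ∧ Sep ((A : Set (E d)) ∩ S) ((B : Set (E d)) ∩ S)} : ℝ)) :
    ∃ A' ⊆ A, ∃ B' ⊆ B, Sep (A' : Set (E d)) (B' : Set (E d)) ∧
      (1 - 2 * (d + 2) ^ 2 * ε ^ ((1 : ℝ) / (d + 1))) * N ≤ A'.card ∧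
      (1 - 2 * (d + 2) ^ 2 * ε ^ ((1 : ℝ) / (d + 1))) * N ≤ B'.card := by
  classical
  rcases hN with hN | hN
  · refine main_large hd ε hε N A B hAB hA hB hN ?_
    have h1 := card_good_add (d := d) A B hAB N hA hB
    have h2 : ((Nat.card {S : Finset (E d) // (S : Set (E d)) ⊆ (A : Set (E d)) ∪ (B : Set (E d)) ∧
      S.card = d + 2 ∧ Sep ((A : Set (E d)) ∩ S) ((B : Set (E d)) ∩ S)} : ℝ)) +
      ((bads (A : Set (E d)) (A ∪ B)).card : ℝ) ≤ ((2 * N).choose (d + 2) : ℝ) := by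
      exact_mod_cast h1
    linarith
  · refine ⟨A, subset_rfl, B, subset_rfl, sep_of_affineIndependent hd A B hAB hN, ?_⟩
    rw [hA, hB]
    have ht0 : 0 ≤ ε ^ ((1 : ℝ) / (d + 1)) := Real.rpow_nonneg hε _
    have hN0 : (0 : ℝ) ≤ N := Nat.cast_nonneg N
    have hd0 : (0 : ℝ) ≤ d := Nat.cast_nonneg d
    have : 0 ≤ 2 * ((d : ℝ) + 2) ^ 2 * ε ^ ((1 : ℝ) / (d + 1)) * N := by positivity
    constructor <;> linarith

/-- the error term tends to zero -/
lemma tendsto_bound (d : ℕ) :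
    Filter.Tendsto (fun ε : ℝ => 2 * ((d : ℝ) + 2) ^ 2 * ε ^ ((1 : ℝ) / (d + 1)))
      (nhdsWithin 0 (Set.Ioi 0)) (nhds 0) := by
  have h1 : Filter.Tendsto (fun ε : ℝ => ε ^ ((1 : ℝ) / (d + 1))) (nhds 0) (nhds 0) := by
    have h2 : (0 : ℝ) < (1 : ℝ) / (d + 1) := by positivity
    have h3 := (Real.continuousAt_rpow_const (0 : ℝ) ((1 : ℝ) / (d + 1)) (Or.inr h2.le)).tendsto
    rwa [Real.zero_rpow h2.ne'] at h3
  have h4 := (h1.const_mul (2 * ((d : ℝ) + 2) ^ 2)).mono_left
    (nhdsWithin_le_nhds (s := Set.Ioi (0 : ℝ)))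
  simpa using h4

end Pool.Agent.Y380.KP
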